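import Pool.Agent.V11106.GP.Typed

/-!
For every multiple `b ≥ 6` of three there are continuum many pairwise projectively inequivalent
nontrivial `(4, b)`-geproci sets in complex projective three-space.
-/

set_option autoImplicit false

open Cardinal MvPolynomial
open Pool.Agent.Results.MP_586029_ag.GeprociMatroid

namespace Pool.Agent.Results.MP_e29873_ag.ContinuumManyClasses

/-- `Z` is an `(a, b)`-geproci set: `Z` is finite and for a general point `P` (outside the zero
set of some nonzero polynomial `D`) the homogeneous ideal of the image of `Z` under the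
projection from `P` to a plane is generated by a regular sequence `F`, `G` of forms of degrees `a`
and `b`. The projection from `P` is given by a linear map `π` from `ℂ⁴` to `ℂ³` whose kernel is
the line `P`. -/
def IsGeprociOfType (a b : ℕ) (Z : Set P3) : Prop :=
  Z.Finite ∧ ∃ D : MvPolynomial (Fin 4) ℂ, D ≠ 0 ∧ ∀ P : V4, eval P D ≠ 0 →
    ∀ π : V4 →ₗ[ℂ] V3, LinearMap.ker π = Submodule.span ℂ {P} →
      ∃ F G : R3, F.IsHomogeneous a ∧ G.IsHomogeneous b ∧
        RingTheory.Sequence.IsRegular R3 [F, G] ∧ imageIdeal Z π = Ideal.span {F, G}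

/-- A nontrivial `(a, b)`-geproci set: it has `a b` points, spans the space and is not a grid. -/
def IsNontrivial (a b : ℕ) (Z : Set P3) : Prop :=
  IsGeprociOfType a b Z ∧ Z.ncard = a * b ∧ ¬ IsDegenerate Z ∧ ¬ IsGrid Z

open Pool.Agent.Y744.GP in
lemma nontrivial_ZZ {k : ℕ} {t : Fin k → ℂ} (ht : AlgebraicIndependent ℚ t) :
    IsNontrivial 4 (3 * (k + 1)) (ZZ t) := by
  refine ⟨⟨Set.finite_range _, DS _, DS_ne_zero (good_of_ai ht), fun P hP π hπ =>
    Pool.Agent.V11106.GP.geproci_typed (Nat.succ_pos k) (good_of_ai ht) hP hπ⟩, ?_,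
    not_isDegenerate_Zs (j₀ := 0) rfl, not_isGrid_Zs (j₀ := 0) rfl⟩
  rw [ncard_ZZ (good_of_ai ht)]
  ring

/-- **Main result.** For every multiple `b ≥ 6` of three there is a set `T` of continuum many
nontrivial `(4, b)`-geproci sets, no two of which are projectively equivalent. So for the pair
`(4, b)` there are infinitely many projective equivalence classes. -/
theorem result (b : ℕ) (hb : 6 ≤ b) (h3 : 3 ∣ b) :
    ∃ T : Set (Set P3), #T = 𝔠 ∧ (∀ Z ∈ T, IsNontrivial 4 b Z) ∧
      ∀ Z ∈ T, ∀ Z' ∈ T, ProjectivelyEquivalent Z Z' → Z = Z' := by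
  obtain ⟨m, rfl⟩ := h3
  obtain ⟨k, rfl⟩ : ∃ k, m = k + 1 := ⟨m - 1, by omega⟩
  have hk : 0 < k := by omega
  obtain ⟨T, h1, h2, h4⟩ := Pool.Agent.Y744.GP.exists_large hk
  refine ⟨Pool.Agent.Y744.GP.ZZ '' T, ?_, ?_, ?_⟩
  · rw [← h1]
    apply mk_image_eq_of_injOn
    intro t ht t' ht' h
    apply h4 t ht t' ht'
    rw [h]
    exact Pool.Agent.Y744.GP.pe_refl _
  · rintro _ ⟨t, ht, rfl⟩
    exact nontrivial_ZZ (h2 t ht)
  · rintro _ ⟨t, ht, rfl⟩ _ ⟨t', ht', rfl⟩ h
    rw [h4 t ht t' ht' h]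

end Pool.Agent.Results.MP_e29873_ag.ContinuumManyClasses
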